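import Pool.Agent.W719.AX.Arb

/-!
# The ratio limit along odd integers for all highly twisted arborescent links

The definitions (weighted planar trees, the coloured Jones polynomial of the arborescent link of a
tree from the R-matrix of `U_q(sl_2)`, angle structures of its complement and their volume) are in
`Pool.Agent.W719.AX.Arb`.
-/

set_option autoImplicit false

namespace Pool.Agent.Results.MP_b30479_gt.ArborescentOdd

open Finset Filter Topology Pool.Agent.W719.AX.Arb

/-- The filter of the odd integers tending to infinity. -/
def oddTop : Filter ℕ := atTop ⊓ 𝓟 {n | Odd n}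

/-- **The volume conjecture in the ratio sense along the odd integers for all highly twisted
arborescent links.**  For every `D` there is an `M` such that for every weighted planar tree with at
least one edge, at most `D` children at every vertex and all weights of absolute value at least `M`
(with arbitrary signs):
(1) for every `n` the coloured Jones polynomial is continuous at `v_n`, so that `kashaev e f t n`
is its value at `q = e^(2 π i / n)` in the usual sense;
(2) the volume functional has a maximum `V` over the angle structures (by Casson, Rivin, Hodgson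
and Thurston the hyperbolic volume of the link complement);
(3) for all integers `e`, `f` (framing and sign), with `a_n = kashaev e f t n`: `a_n ≠ 0` for all large
odd `n`, there is a real number `C` such that `a_{n+2} / a_n` tends to `exp ((V + i C) / π)` along odd
`n`, and `2 π log |a_n| / n` tends to `V`;
(4) if the tree is the double of a tree (then the link is amphichiral), this holds with `C = 0`. -/
theorem result : ∀ D : ℕ, ∃ M : ℕ, ∀ t : Tree, 1 ≤ t.children → t.Twisted M D →
    (∀ n : ℕ, ContinuousAt (jones t n) (root n)) ∧
    ∃ V : ℝ, IsGreatest {W : ℝ | ∃ y : AngleTree, y.tree = t ∧ IsAngle y ∧ vol y = W} V ∧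
      (∀ e f : ℤ, (∀ᶠ n : ℕ in oddTop, kashaev e f t n ≠ 0) ∧
        Tendsto (fun n : ℕ => 2 * Real.pi / n * Real.log ‖kashaev e f t n‖) oddTop (𝓝 V) ∧
        ∃ C : ℝ, Tendsto (fun n : ℕ => kashaev e f t (n + 2) / kashaev e f t n) oddTop
          (𝓝 (Complex.exp ((V + Complex.I * C) / Real.pi)))) ∧
      ∀ s : Tree, t = s.double →
        Tendsto (fun n : ℕ => kashaev 0 1 t (n + 2) / kashaev 0 1 t n) oddTop
          (𝓝 (Complex.exp (V / Real.pi))) := by
  intro D
  obtain ⟨M, hM⟩ := main D
  refine ⟨M, fun t hc ht => ?_⟩
  obtain ⟨h1, V, h2, h3, h4⟩ := hM t hc ht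
  have hodd : oddTop ≤ atTop := inf_le_left
  have hpi : (Real.pi : ℂ) ≠ 0 := by exact_mod_cast Real.pi_ne_zero
  refine ⟨h1, V, h2, fun e f => ?_, fun s hs => ?_⟩
  · obtain ⟨v, y, hv, hy, h⟩ := h3 e f
    obtain ⟨r1, _, r3, r4, _⟩ := Pool.Agent.W460.AX.rat _ v y hy h
    refine ⟨hodd r1, ?_, 2 * Real.pi * v.im, ?_⟩
    · rw [← hv]
      refine (r4.mono_left hodd).congr fun n => ?_
      ring
    · have e1 : ((V : ℂ) + Complex.I * (2 * Real.pi * v.im : ℝ)) / Real.pi = 2 * v := by
        rw [← hv]
        conv_rhs => rw [← Complex.re_add_im v]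
        push_cast
        field_simp
      rw [e1]
      exact r3.mono_left hodd
  · obtain ⟨x, hx, h⟩ := h4 s hs
    have h5 := (Pool.Agent.W460.AX.rat _ _ _ (by exact_mod_cast hx.ne') h).2.2.1
    have e1 : (V : ℂ) / Real.pi = 2 * ((V / (2 * Real.pi) : ℝ) : ℂ) := by
      push_cast
      field_simp
    rw [e1]
    exact h5.mono_left hodd

end Pool.Agent.Results.MP_b30479_gt.ArborescentOdd
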