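import Pool.Agent.W719.BS.Ans

/-!
# MP_b30479_gt: the complexified volume conjecture at odd roots of unity for all belted sums of
# Whitehead links

`L_w` is the closure of the two-strand word `w` in clasps and half twists together with a belt
around the two strands, all components coloured `n`; `JL` (`Pool.Agent.W719.BS.Defs`) is its
invariant as a long link, computed with the R-matrix.
-/

set_option autoImplicit false

namespace Pool.Agent.Results.MP_b30479_gt.BeltedSumsOdd

open Filter Topology Pool.Agent.W719.BS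

/-- the number of clasps -/
def nclasp (w : List Piece) : ℕ := w.count (.clasp true) + w.count (.clasp false)

/-- positive minus negative clasps -/
def kclasp (w : List Piece) : ℤ := w.count (.clasp true) - w.count (.clasp false)

/-- positive minus negative half twists -/
def stwist (w : List Piece) : ℤ := w.count (.twist true) - w.count (.twist false)

/-- `8 Λ(π/4)`, the volume of the regular ideal octahedron -/
noncomputable def v8 : ℝ := -8 * ∫ t in (0:ℝ)..(Real.pi / 4), Real.log (2 * Real.sin t)

/-- the invariant of `L_w` at `t = e^(2πi/n)`, with framing factor `e^(πi f (n²-1)/(2n))` -/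
noncomputable def a (w : List Piece) (f : ℤ) (n : ℕ) : ℂ :=
  Complex.exp (Real.pi * Complex.I * f * ((n : ℂ) ^ 2 - 1) / (2 * n)) * JL w n (v0 n)

/-- a real representative of the Chern-Simons invariant (sign convention `vol + i CS`) -/
noncomputable def CS (w : List Piece) (f : ℤ) : ℝ :=
  Real.pi ^ 2 * (9 * kclasp w - 2 * stwist w) / 4 + Real.pi ^ 2 * f

/-- along odd `n` (`n = 2 j + 1`): `a_n ≠ 0` for large `n` and
`a_{n+2} / a_n → exp ((vol + i CS) / π)` with `vol = b v8` -/
theorem result (w : List Piece) (hw : 1 ≤ nclasp w) (f : ℤ) :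
    (∀ n : ℕ, 1 ≤ n → ContinuousAt (JL w n) (v0 n)) ∧
    (∀ᶠ j : ℕ in atTop, a w f (2 * j + 1) ≠ 0) ∧
    Tendsto (fun j : ℕ => a w f (2 * j + 1 + 2) / a w f (2 * j + 1)) atTop
      (𝓝 (Complex.exp ((((nclasp w * v8 : ℝ) : ℂ) + Complex.I * (CS w f : ℂ)) / Real.pi))) := by
  have hC : Cw w ≠ 0 := Cw_ne w hw
  have hz : Complex.exp (Phi w f / (2 * Real.pi * Complex.I)) ≠ 0 := Complex.exp_ne_zero _
  have h : Tendsto (fun N : ℕ => a w f N / (((N : ℝ) * √N : ℝ) *
      Complex.exp (Phi w f / (2 * Real.pi * Complex.I)) ^ N)) atTop (𝓝 (Cw w)) :=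
    JF_asymp w hw f
  have hsub : Tendsto (fun j : ℕ => 2 * j + 1) atTop atTop :=
    tendsto_atTop_mono (fun j => show j ≤ 2 * j + 1 by omega) tendsto_id
  refine ⟨fun n hn => (Pool.Agent.W749.BS.s_CONT w n hn).1,
    hsub.eventually (asy_ne _ _ _ hC h), ?_⟩
  have h2 := (asy_ratio _ _ _ hz hC h 2).comp hsub
  have e : Complex.exp (Phi w f / (2 * Real.pi * Complex.I)) ^ 2 =
      Complex.exp ((((nclasp w * v8 : ℝ) : ℂ) + Complex.I * (CS w f : ℂ)) / Real.pi) := by
    rw [← Complex.exp_nat_mul]
    congr 1
    have hpi : (Real.pi : ℂ) ≠ 0 := by exact_mod_cast Real.pi_ne_zero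
    have hI := Complex.I_ne_zero
    have hI2 : Complex.I * Complex.I = -1 := Complex.I_mul_I
    have e1 : Phi w f = Complex.I * ((((nclasp w * v8 : ℝ) : ℂ) +
        Complex.I * (CS w f : ℂ))) := by
      have e2 : CSw w f = -CS w f := by
        unfold CSw CS
        have : nk w = kclasp w := rfl
        have : ns w = stwist w := rfl
        rw [‹nk w = _›, ‹ns w = _›]
        ring
      unfold Phi
      rw [e2]
      have : (nb w : ℝ) * voct = nclasp w * v8 := rfl
      rw [this]
      push_cast
      linear_combination (-(CS w f : ℂ)) * hI2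
    rw [e1]
    push_cast
    field_simp
  rw [e] at h2
  exact h2

end Pool.Agent.Results.MP_b30479_gt.BeltedSumsOdd
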