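import Pool.Agent.W709.RT.San
import Pool.Agent.H105R3.JSanCurl
import Pool.Agent.H309R4.Jones.SanU
import Pool.Agent.H550R3.Jones.SanSkein699
import Pool.Agent.H927R2.J.SanYB
import Pool.Agent.H309R4.Jones.SanI
import Pool.Agent.H22R3.J.Nat
import Pool.Agent.W707.RT.Main

/-!
# The complexified volume conjecture in the ratio sense for the double twist knots and links

`C(A, A)` is the two-bridge knot (`A` even) or two-component link (`A` odd) with one twist region of
`A` crossings and one of `A` opposite crossings.  Cut open it is the (1,1)-tangle of the following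
picture: start with one strand and a cup to its right (three strands), perform `A` crossings between
the strands 1 and 2, then `A` opposite crossings between the strands 2 and 3, close the strands 1
and 2 by a cap; the third strand leaves.

Everything is defined from the R-matrix of `U_q(sl_2)`, with `v = q^{1/2}` and
`{k} = v^k - v^{-k}`.  The `N`-coloured Jones polynomial is the (scalar) operator of the
(1,1)-tangle, read off at the highest weight vector.  The Kashaev invariant is its value at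
`v = exp (π i / N)`, that is `q = exp (2 π i / N)`.
-/

set_option autoImplicit false

namespace Pool.Agent.Results.MP_b30479_gt.DoubleTwistRatio

open Finset Filter Topology

/-! ### The coloured Jones polynomial -/

/-- `{n} = v^n - v^{-n}` -/
noncomputable def br (v : ℂ) (n : ℤ) : ℂ := v ^ n - v ^ (-n)

/-- `{n}! = {1} {2} ⋯ {n}` -/
noncomputable def brf (v : ℂ) (n : ℕ) : ℂ := ∏ j ∈ range n, br v ((j : ℤ) + 1)

/-- The positive crossing: the R-matrix of `U_q(sl_2)` on `V_N ⊗ V_N`, `V_N` with basis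
`e_0, …, e_{N-1}`, times the framing factor `v^{-(N^2-1)/2}`; `crossP N v p q` is the coefficient
of `e_{p.1} ⊗ e_{p.2}` in the image of `e_{q.1} ⊗ e_{q.2}`:
`e_i ⊗ e_j ↦ ∑_n v^{-(N-1)(1+i+j) + 2(i-n)(j+n) + n(n-1)/2}
({j+n}! / ({j}! {n}!)) ∏_{t<n} {N-i+t} e_{j+n} ⊗ e_{i-n}`. -/
noncomputable def crossP (N : ℕ) (v : ℂ) : Matrix (Fin N × Fin N) (Fin N × Fin N) ℂ :=
  fun p q => if (p.1 : ℕ) + p.2 = q.1 + q.2 ∧ (q.2 : ℕ) ≤ p.1 then
    v ^ (-((N : ℤ) - 1) * (1 + (q.1 : ℕ) + (q.2 : ℕ)) + 2 * (p.1 : ℕ) * (p.2 : ℕ)) *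
      v ^ (((p.1 : ℕ) - q.2) * ((p.1 : ℕ) - q.2 - 1) / 2) *
      (brf v p.1 / (brf v q.2 * brf v ((p.1 : ℕ) - q.2))) *
      ∏ t ∈ range ((p.1 : ℕ) - q.2), br v ((N : ℤ) - (q.1 : ℕ) + t)
    else 0

/-- The negative crossing, inverse of `crossP N v`:
`e_i ⊗ e_j ↦ ∑_n (-1)^n v^{(N-1)(1+i+j) - 2ij - n(n-1)/2}
({i+n}! / ({i}! {n}!)) ∏_{t<n} {N-j+t} e_{j-n} ⊗ e_{i+n}`. -/
noncomputable def crossN (N : ℕ) (v : ℂ) : Matrix (Fin N × Fin N) (Fin N × Fin N) ℂ :=
  fun p q => if (p.1 : ℕ) + p.2 = q.1 + q.2 ∧ (q.1 : ℕ) ≤ p.2 then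
    (-1) ^ ((p.2 : ℕ) - q.1) *
      v ^ (((N : ℤ) - 1) * (1 + (q.1 : ℕ) + (q.2 : ℕ)) - 2 * (q.1 : ℕ) * (q.2 : ℕ)) /
      v ^ (((p.2 : ℕ) - q.1) * ((p.2 : ℕ) - q.1 - 1) / 2) *
      (brf v p.2 / (brf v q.1 * brf v ((p.2 : ℕ) - q.1))) *
      ∏ t ∈ range ((p.2 : ℕ) - q.1), br v ((N : ℤ) - (q.2 : ℕ) + t)
    else 0

/-- The crossing `A` on the strands number `k` and `k + 1` (counted from `0`) of `n` strands. -/
def gen {ι : Type} [DecidableEq ι] (A : Matrix (ι × ι) (ι × ι) ℂ) (n k : ℕ) :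
    Matrix (Fin n → ι) (Fin n → ι) ℂ :=
  fun s t => if h : k + 1 < n then
    (if ∀ j : Fin n, (j : ℕ) ≠ k → (j : ℕ) ≠ k + 1 → s j = t j then
      A (s ⟨k, by omega⟩, s ⟨k + 1, h⟩) (t ⟨k, by omega⟩, t ⟨k + 1, h⟩) else 0)
    else (if s = t then 1 else 0)

/-- The operator of a braid word on `n` strands (the last letter acts first): the letter
`(k, true)` is the crossing `P`, the letter `(k, false)` the crossing `Q` on the strands number `k`
and `k + 1`. -/
def rep {ι : Type} [Fintype ι] [DecidableEq ι] (P Q : Matrix (ι × ι) (ι × ι) ℂ) (n : ℕ)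
    (w : List (ℕ × Bool)) : Matrix (Fin n → ι) (Fin n → ι) ℂ :=
  (w.map fun g => gen (if g.2 then P else Q) n g.1).prod

/-- The coefficients of the invariant vector `∑_k kap k e_k ⊗ e_{N-1-k}` of `V_N ⊗ V_N`:
`kap k = (-1)^k v^{k(N-2-k)} {k}! {N-1-k}! / {N-1}!`. -/
noncomputable def kap (N : ℕ) (v : ℂ) (k : ℕ) : ℂ :=
  (-1) ^ k * v ^ ((k : ℤ) * ((N : ℤ) - 2 - k)) * (brf v k * brf v (N - 1 - k) / brf v (N - 1))

/-- The cup: the invariant vector of `V_N ⊗ V_N`. -/
noncomputable def cup (N : ℕ) (v : ℂ) (p : Fin N × Fin N) : ℂ :=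
  if (p.1 : ℕ) + p.2 = N - 1 then kap N v p.1 else 0

/-- The cap: the invariant linear form on `V_N ⊗ V_N`. -/
noncomputable def cap (N : ℕ) (v : ℂ) (p : Fin N × Fin N) : ℂ :=
  if (p.1 : ℕ) + p.2 = N - 1 then (kap N v p.2)⁻¹ else 0

/-- The operator `V_N → V_N` of the (1,1)-tangle: a cup between the strands 2 and 3, the braid word
`w` on three strands, a cap between the strands 1 and 2. -/
noncomputable def tangle (N : ℕ) (w : List (ℕ × Bool)) (v : ℂ) : Matrix (Fin N) (Fin N) ℂ :=
  fun i j => ∑ p : Fin N × Fin N, ∑ q : Fin N × Fin N,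
    cap N v p * rep (crossP N v) (crossN N v) 3 w ![p.1, p.2, i] ![j, q.1, q.2] * cup N v q

/-- `A` crossings between the strands 1 and 2, then `A` opposite crossings between the strands
2 and 3. -/
def word (A : ℕ) : List (ℕ × Bool) := List.replicate A (1, false) ++ List.replicate A (0, true)

/-- The `N`-coloured Jones polynomial of `C(A, A)` (unknot `= 1`; all components coloured `N`) at
`q = v^2`: the entry of the (1,1)-tangle operator at the highest weight vector `e_0`.
(For `A` even the diagram has writhe `0`, and the framing factors of the crossings cancel.) -/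
noncomputable def jones (A N : ℕ) (v : ℂ) : ℂ :=
  if h : 0 < N then tangle N (word A) v ⟨0, h⟩ ⟨0, h⟩ else 0

/-- `v_N = exp (π i / N)`, so that `q = v_N^2 = exp (2 π i / N)`. -/
noncomputable def root (N : ℕ) : ℂ := Complex.exp (Real.pi * Complex.I / N)

/-- The Kashaev invariant of `C(A, A)`. -/
noncomputable def kashaev (A N : ℕ) : ℂ := jones A N (root N)

/-! ### The hyperbolic volume

The complement of `C(A, A)` has a canonical ideal triangulation (Sakuma and Weeks; Gueritaud and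
Futer) with `2 A - 3` layers of two ideal tetrahedra.  Its angle structures are parametrised by
`w_0, …, w_{2A-2}` with `w_0 = w_{2A-2} = π`; both tetrahedra of layer `i` have the dihedral angles
`angX`, `angY`, `angZ`.  Layer `A - 1` is the hinge between the two twist regions. -/

/-- Lobachevsky's function `Λ(x) = -∫_0^x log |2 sin t| dt`. -/
noncomputable def Lob (x : ℝ) : ℝ := -∫ t in (0 : ℝ)..x, Real.log |2 * Real.sin t|

/-- first dihedral angle of the tetrahedra of layer `i` -/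
noncomputable def angX (A : ℕ) (w : ℕ → ℝ) (i : ℕ) : ℝ :=
  if i + 1 = A then (w (i - 1) + w i - w (i + 1)) / 2 else (w (i - 1) + w (i + 1)) / 2

/-- second dihedral angle of the tetrahedra of layer `i` -/
noncomputable def angY (A : ℕ) (w : ℕ → ℝ) (i : ℕ) : ℝ :=
  if i + 1 = A then (-w (i - 1) + w i + w (i + 1)) / 2
  else (2 * w i - w (i - 1) - w (i + 1)) / 2

/-- third dihedral angle of the tetrahedra of layer `i` -/
noncomputable def angZ (w : ℕ → ℝ) (i : ℕ) : ℝ := Real.pi - w i

/-- the angle structures -/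
def IsAngle (A : ℕ) (w : ℕ → ℝ) : Prop :=
  w 0 = Real.pi ∧ w (A + A - 2) = Real.pi ∧
    ∀ i, 1 ≤ i → i ≤ A + A - 3 → 0 < angX A w i ∧ 0 < angY A w i ∧ 0 < angZ w i

/-- the volume of an angle structure: two ideal tetrahedra in every layer -/
noncomputable def vol (A : ℕ) (w : ℕ → ℝ) : ℝ :=
  ∑ i ∈ Icc 1 (A + A - 3), 2 * (Lob (angX A w i) + Lob (angY A w i) + Lob (angZ w i))

/-! ### Checks of the definitions (not part of the result) -/

/-- For `N = 2` the crossings satisfy the skein relation of the Jones polynomial. -/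
theorem skein (v : ℂ) (hv : v ≠ 0) (h1 : br v 1 ≠ 0) :
    v ^ 2 • crossP 2 v - (v ^ 2)⁻¹ • crossN 2 v =
      (v - v⁻¹) • (1 : Matrix (Fin 2 × Fin 2) (Fin 2 × Fin 2) ℂ) :=
  Pool.Agent.H550R3.Jones.taskSanSkein v hv h1

/-- The two crossings are inverse to each other. -/
theorem cross_inverse (N : ℕ) (v : ℂ) (hv : v ≠ 0)
    (h : ∀ k : ℕ, 0 < k → k < N → br v k ≠ 0) :
    crossP N v * crossN N v = 1 ∧ crossN N v * crossP N v = 1 :=
  Pool.Agent.H309R4.Jones.SanI.taskSanInv Pool.Agent.H345J.taskMod Pool.Agent.H345J.taskInv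
    Pool.Agent.H559R3.J.taskCross N v ⟨hv, h⟩

/-- The Yang-Baxter equation, for every colour. -/
theorem yang_baxter (N : ℕ) (v : ℂ) (hv : v ≠ 0) (h : ∀ k : ℕ, 0 < k → k < N → br v k ≠ 0) :
    gen (crossP N v) 3 0 * gen (crossP N v) 3 1 * gen (crossP N v) 3 0 =
      gen (crossP N v) 3 1 * gen (crossP N v) 3 0 * gen (crossP N v) 3 1 :=
  Pool.Agent.H927R2.J.SanYB.taskSanYB Pool.Agent.H345J.taskMod Pool.Agent.H345J.taskInt
    Pool.Agent.H345J.taskInv Pool.Agent.H667J.taskHex1 Pool.Agent.H22R3.J.taskNat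
    Pool.Agent.H559R3.J.taskCross N v ⟨hv, h⟩

/-- Zigzag: without crossings the tangle is trivial (the unknot has the value `1`). -/
theorem zigzag (N : ℕ) (v : ℂ) (hv : v ≠ 0) (h : ∀ k : ℕ, 0 < k → k < N → br v k ≠ 0) :
    tangle N [] v = 1 :=
  Pool.Agent.W709.RT.zigzag hv h

/-! ### The result -/

lemma jones_eq (A N : ℕ) : jones A N = Pool.Agent.W709.RT.jt A N := rfl

lemma volume_eq (A : ℕ) : {W : ℝ | ∃ w, IsAngle A w ∧ vol A w = W} =
    {W : ℝ | ∃ w, Pool.Agent.W709.VC.IsAngle A A w ∧ Pool.Agent.W709.VC.volw A A w = W} := rfl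

/-- **The complexified volume conjecture in the ratio sense, with the first correction term and an
error bound, for every double twist knot (`A ≥ 4` even) and every two-component double twist link
(`A ≥ 5` odd) `C(A, A)`** (all of them amphichiral).
(1) For every `n ≥ 1` the coloured Jones polynomial is continuous at `v_n`, so that `kashaev A n`
is its value at `q = e^(2 π i / n)` in the usual sense.
(2) The volume functional has a maximum `V` over the angle structures of the canonical ideal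
triangulation of the complement (by Casson and Rivin the hyperbolic volume), `⟨L⟩_n ≠ 0` for all
large `n`, and `π log (⟨L⟩_{n+2} / ⟨L⟩_n) = V + 3 π / n + O(1/n^2)`, for all `n`, in particular along
odd `n`. -/
theorem result (A : ℕ) (hA : 4 ≤ A) :
    (∀ n : ℕ, 1 ≤ n → ContinuousAt (jones A n) (root n)) ∧
    ∃ V : ℝ, IsGreatest {W : ℝ | ∃ w, IsAngle A w ∧ vol A w = W} V ∧
      ∃ C : ℝ, ∀ᶠ n : ℕ in atTop, kashaev A n ≠ 0 ∧
        ‖Real.pi * Complex.log (kashaev A (n + 2) / kashaev A n) - (V + 3 * Real.pi / n)‖ ≤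
          C / (n : ℝ) ^ 2 := by
  refine ⟨fun n _ => ?_, ?_⟩
  · rw [jones_eq]
    exact Pool.Agent.W709.RT.jt_cont A n
  · rw [volume_eq]
    exact Pool.Agent.W707.RT.ratio_two hA

end Pool.Agent.Results.MP_b30479_gt.DoubleTwistRatio
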